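import Pool.Agent.H65.CRG.TL
import Pool.Agent.H99.CRZ.DB

/-!
# (DB) Cauchy's formula in two variables for the main term, general degree.  helper96
-/

set_option autoImplicit false

open Complex Set MeasureTheory

namespace Pool.Agent.H96.CRG

open Pool.Agent.H65.CRZ Pool.Agent.H65.CRG

/-- continuous functions: exchange of two interval integrals -/
theorem db_swap {F : ℝ → ℝ → ℂ} (hF : Continuous (Function.uncurry F)) (a b c d : ℝ) :
    ∫ x in a..b, ∫ y in c..d, F x y = ∫ y in c..d, ∫ x in a..b, F x y := by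
  apply intervalIntegral_intervalIntegral_swap
  refine IntegrableOn.mono_set (t := uIcc a b ×ˢ uIcc c d) ?_
    (prod_mono uIoc_subset_uIcc uIoc_subset_uIcc)
  exact hF.continuousOn.integrableOn_compact (isCompact_uIcc.prod isCompact_uIcc)

/-- the functional on the functions of the form needed -/
theorem db_lam {w κ A0 A1 : ℝ → ℂ} {P : ℝ} (hw : Continuous w) (hκ : Continuous κ)
    (h0 : ∀ v : ℝ, ∫ φ in (0 : ℝ)..P, cexp (-(w φ * v)) * κ φ = P * A0 v)
    (h1 : ∀ v : ℝ, ∫ φ in (0 : ℝ)..P, w φ * cexp (-(w φ * v)) * κ φ = P * A1 v)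
    {α β : ℝ → ℂ} (hα : Continuous α) (hβ : Continuous β) (γ δ : ℂ) :
    ∫ φ in (0 : ℝ)..P, ((∫ v in (0 : ℝ)..1, (α v * cexp (-(w φ * v)) +
      β v * (w φ * cexp (-(w φ * v))))) + γ + δ * cexp (-(w φ))) * κ φ =
      P * ((∫ v in (0 : ℝ)..1, (α v * A0 v + β v * A1 v)) + γ * A0 0 + δ * A0 1) := by
  have hF : Continuous (Function.uncurry fun φ v : ℝ => (α v * cexp (-(w φ * v)) +
      β v * (w φ * cexp (-(w φ * v)))) * κ φ) := by
    unfold Function.uncurry
    fun_prop
  have e1 : ∀ φ : ℝ, ((∫ v in (0 : ℝ)..1, (α v * cexp (-(w φ * v)) +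
      β v * (w φ * cexp (-(w φ * v))))) + γ + δ * cexp (-(w φ))) * κ φ =
      (∫ v in (0 : ℝ)..1, (α v * cexp (-(w φ * v)) + β v * (w φ * cexp (-(w φ * v)))) * κ φ) +
        (γ * (cexp (-(w φ * (0 : ℝ))) * κ φ) + δ * (cexp (-(w φ * (1 : ℝ))) * κ φ)) := by
    intro φ
    rw [intervalIntegral.integral_mul_const]
    simp only [ofReal_zero, mul_zero, neg_zero, Complex.exp_zero, ofReal_one, mul_one, one_mul]
    ring
  have c1 : Continuous fun φ : ℝ => ∫ v in (0 : ℝ)..1,
      (α v * cexp (-(w φ * v)) + β v * (w φ * cexp (-(w φ * v)))) * κ φ :=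
    intervalIntegral.continuous_parametric_intervalIntegral_of_continuous' hF 0 1
  have c2 : ∀ u : ℝ, Continuous fun φ : ℝ => cexp (-(w φ * u)) * κ φ := by
    intro u
    fun_prop
  have c4 : Continuous fun φ : ℝ => γ * (cexp (-(w φ * (0 : ℝ))) * κ φ) := (c2 0).const_mul γ
  have c5 : Continuous fun φ : ℝ => δ * (cexp (-(w φ * (1 : ℝ))) * κ φ) := (c2 1).const_mul δ
  have c6 : Continuous fun φ : ℝ => γ * (cexp (-(w φ * (0 : ℝ))) * κ φ) +
      δ * (cexp (-(w φ * (1 : ℝ))) * κ φ) := c4.add c5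
  rw [intervalIntegral.integral_congr fun φ _ => e1 φ,
    intervalIntegral.integral_add (c1.intervalIntegrable _ _) (c6.intervalIntegrable _ _),
    intervalIntegral.integral_add (c4.intervalIntegrable _ _) (c5.intervalIntegrable _ _),
    intervalIntegral.integral_const_mul, intervalIntegral.integral_const_mul, h0 0, h0 1,
    db_swap hF]
  have e2 : ∀ v : ℝ, ∫ φ in (0 : ℝ)..P, (α v * cexp (-(w φ * v)) +
      β v * (w φ * cexp (-(w φ * v)))) * κ φ = P * (α v * A0 v + β v * A1 v) := by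
    intro v
    have c3 : Continuous fun φ : ℝ => β v * (w φ * cexp (-(w φ * v)) * κ φ) := by fun_prop
    have c7 : Continuous fun φ : ℝ => α v * (cexp (-(w φ * v)) * κ φ) := by fun_prop
    have e3 : ∀ φ : ℝ, (α v * cexp (-(w φ * v)) + β v * (w φ * cexp (-(w φ * v)))) * κ φ =
        α v * (cexp (-(w φ * v)) * κ φ) + β v * (w φ * cexp (-(w φ * v)) * κ φ) := by
      intro φ
      ring
    rw [intervalIntegral.integral_congr fun φ _ => e3 φ,
      intervalIntegral.integral_add (c7.intervalIntegrable _ _) (c3.intervalIntegrable _ _),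
      intervalIntegral.integral_const_mul, intervalIntegral.integral_const_mul, h0 v, h1 v]
    ring
  rw [intervalIntegral.integral_congr fun v _ => e2 v, intervalIntegral.integral_const_mul]
  ring

theorem db_it0 (v : ℂ) (i : ℕ) :
    iteratedDeriv i (fun a : ℂ => cexp (-(a * v))) = fun a => (-v) ^ i * cexp (-(a * v)) := by
  induction i with
  | zero =>
    rw [iteratedDeriv_zero]
    funext a
    rw [pow_zero, one_mul]
  | succ i ih =>
    rw [iteratedDeriv_succ, ih]
    funext a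
    have h1 : HasDerivAt (fun a : ℂ => -(a * v)) (-v) a := by
      have h := ((hasDerivAt_id a).mul_const v).neg
      rw [one_mul] at h
      exact h
    have h2 := (h1.cexp).const_mul ((-v) ^ i)
    rw [h2.deriv]
    ring

theorem db_it1 (v : ℂ) (i : ℕ) :
    iteratedDeriv i (fun a : ℂ => a * cexp (-(a * v))) =
      fun a => ((-v) ^ i * a + i * (-v) ^ (i - 1)) * cexp (-(a * v)) := by
  induction i with
  | zero =>
    rw [iteratedDeriv_zero]
    funext a
    simp
  | succ i ih =>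
    rw [iteratedDeriv_succ, ih]
    funext a
    have h1 : HasDerivAt (fun a : ℂ => -(a * v)) (-v) a := by
      have h := ((hasDerivAt_id a).mul_const v).neg
      rw [one_mul] at h
      exact h
    have h3 : HasDerivAt (fun a : ℂ => (-v) ^ i * a + i * (-v) ^ (i - 1)) ((-v) ^ i) a := by
      have h := ((hasDerivAt_id a).const_mul ((-v) ^ i)).add_const (i * (-v) ^ (i - 1))
      rw [mul_one] at h
      exact h
    have h2 : HasDerivAt (fun a : ℂ => ((-v) ^ i * a + i * (-v) ^ (i - 1)) * cexp (-(a * v)))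
        ((-v) ^ i * cexp (-(a * v)) + ((-v) ^ i * a + i * (-v) ^ (i - 1)) *
          (cexp (-(a * v)) * -v)) a := h3.mul h1.cexp
    rw [h2.deriv]
    rcases Nat.eq_zero_or_pos i with h4 | h4
    · subst h4
      simp
      ring
    · obtain ⟨j, rfl⟩ := Nat.exists_eq_succ_of_ne_zero h4.ne'
      simp only [Nat.succ_eq_add_one, Nat.add_sub_cancel]
      push_cast
      ring

theorem db_path {G : ℂ → ℂ} : ∫ ψ in (0 : ℝ)..(2 * Real.pi), G (cexp (-(ψ * I))) =
    ∫ ψ in (0 : ℝ)..(2 * Real.pi), G (cexp (ψ * I)) := by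
  have h1 := intervalIntegral.integral_comp_sub_left (a := (0 : ℝ)) (b := 2 * Real.pi)
    (fun φ : ℝ => G (cexp (φ * I))) (2 * Real.pi)
  rw [sub_self, sub_zero] at h1
  rw [← h1]
  refine intervalIntegral.integral_congr fun φ _ => ?_
  have e : cexp (((2 * Real.pi - φ : ℝ) : ℂ) * I) = cexp (-(φ * I)) := by
    push_cast
    rw [sub_mul, Complex.exp_sub, Complex.exp_two_pi_mul_I, Complex.exp_neg, one_div]
  show G (cexp (-(φ * I))) = G (cexp (((2 * Real.pi - φ : ℝ) : ℂ) * I))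
  rw [e]

theorem pf_DB (h1 : T_BI) (h2 : T_CK) (h3 : T_QI) : Pool.Agent.H65.CRG.T_DB := by
  intro N m R x hm hR hx
  refine ⟨(Pool.Agent.H99.CRZ.pf_DB R x 0 0 hR hx).1, ?_⟩
  obtain ⟨_, hQ0, hQ, _, hgC⟩ := h3 N m hm
  have hρ : 0 < R / 2 := by linarith
  have hxc : (x : ℂ) ≠ 0 := by exact_mod_cast hx.ne'
  have hRc : (R : ℂ) / 2 ≠ 0 := by
    have : (R : ℂ) ≠ 0 := by exact_mod_cast hR.ne'
    exact div_ne_zero this two_ne_zero
  have hcb := Pool.Agent.H99.CRZ.db_ball hR
  -- the two derivatives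
  set A0 : ℝ → ℂ := fun v => (gQ N m R v : ℂ) with hA0
  set A1 : ℝ → ℂ := fun v => -((deriv (gQ N m R) v : ℝ) : ℂ) with hA1
  have cA0 : Continuous A0 := continuous_ofReal.comp (hgC R).continuous
  have cA1 : Continuous A1 := (continuous_ofReal.comp ((hgC R).continuous_deriv le_rfl)).neg
  have s0 : ∀ v : ℝ, ∑ i ∈ Finset.range (2 * N + 1), (qm N m i : ℂ) / ((1 : ℝ) : ℂ) ^ i *
      iteratedDeriv i (fun a : ℂ => cexp (-(a * v))) (-R) = A0 v := by
    intro v
    show _ = ((gQ N m R v : ℝ) : ℂ)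
    unfold gQ
    rw [hQ v]
    push_cast
    rw [Finset.mul_sum]
    refine Finset.sum_congr rfl fun i _ => ?_
    rw [db_it0, one_pow, div_one]
    have e : -(-(R : ℂ) * (v : ℂ)) = R * v := by ring
    show (qm N m i : ℂ) * ((-(v : ℂ)) ^ i * cexp (-(-(R : ℂ) * (v : ℂ)))) = _
    rw [e]
    ring
  have dQ : ∀ v : ℝ, HasDerivAt (gQ N m R) (R * Real.exp (R * v) *
      (∑ i ∈ Finset.range (2 * N + 1), qm N m i * (-v) ^ i) + Real.exp (R * v) *
      ∑ i ∈ Finset.range (2 * N + 1), qm N m i * (-(i * (-v) ^ (i - 1)))) v := by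
    intro v
    have hfun : gQ N m R = fun v => Real.exp (R * v) *
        ∑ i ∈ Finset.range (2 * N + 1), qm N m i * (-v) ^ i := by
      funext v
      unfold gQ
      rw [hQ v]
    rw [hfun]
    have d1 : HasDerivAt (fun v : ℝ => Real.exp (R * v)) (R * Real.exp (R * v)) v := by
      have h := ((hasDerivAt_id v).const_mul R).exp
      refine h.congr_deriv ?_
      simp only [id, mul_one]
      ring
    have d2 : HasDerivAt (fun v : ℝ => ∑ i ∈ Finset.range (2 * N + 1), qm N m i * (-v) ^ i)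
        (∑ i ∈ Finset.range (2 * N + 1), qm N m i * (-(i * (-v) ^ (i - 1)))) v := by
      refine HasDerivAt.fun_sum fun i _ => ?_
      have h := ((hasDerivAt_neg v).pow i).const_mul (qm N m i)
      refine h.congr_deriv ?_
      ring
    exact d1.mul d2
  have s1 : ∀ v : ℝ, ∑ i ∈ Finset.range (2 * N + 1), (qm N m i : ℂ) / ((1 : ℝ) : ℂ) ^ i *
      iteratedDeriv i (fun a : ℂ => a * cexp (-(a * v))) (-R) = A1 v := by
    intro v
    show _ = -((deriv (gQ N m R) v : ℝ) : ℂ)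
    rw [(dQ v).deriv]
    push_cast
    rw [Finset.mul_sum, Finset.mul_sum, ← Finset.sum_add_distrib, ← Finset.sum_neg_distrib]
    refine Finset.sum_congr rfl fun i _ => ?_
    rw [db_it1, one_pow, div_one]
    have e : -(-(R : ℂ) * (v : ℂ)) = R * v := by ring
    show (qm N m i : ℂ) * (((-(v : ℂ)) ^ i * (-(R : ℂ)) + i * (-(v : ℂ)) ^ (i - 1)) *
      cexp (-(-(R : ℂ) * (v : ℂ)))) = _
    rw [e]
    ring
  -- Cauchy's formula
  have hpi : (2 * Real.pi : ℂ) ≠ 0 := by
    have : (Real.pi : ℂ) ≠ 0 := by exact_mod_cast Real.pi_ne_zero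
    exact mul_ne_zero two_ne_zero this
  have hC : ∀ f : ℂ → ℂ, Differentiable ℂ f → ∀ S : ℂ,
      (∑ i ∈ Finset.range (2 * N + 1), (qm N m i : ℂ) / ((1 : ℝ) : ℂ) ^ i *
        iteratedDeriv i f (-R)) = S →
      ∫ φ in (0 : ℝ)..(2 * Real.pi), f (-R + R / 2 * cexp (φ * I)) *
        kn N m (R / 2 * cexp (φ * I)) = ((2 * Real.pi : ℝ) : ℂ) * S := by
    intro f hf S hS
    have h4 := h2 N m f (-R) (R / 2) 1 hρ one_pos fun z _ => hf z
    rw [hS] at h4
    rw [← h4]
    push_cast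
    rw [← mul_assoc, mul_one_div_cancel hpi, one_mul]
    refine intervalIntegral.integral_congr fun φ _ => ?_
    simp only [div_one]
  have hf0 : ∀ v : ℝ, Differentiable ℂ fun a : ℂ => cexp (-(a * v)) := by
    intro v
    fun_prop
  have hf1 : ∀ v : ℝ, Differentiable ℂ fun a : ℂ => a * cexp (-(a * v)) := by
    intro v
    fun_prop
  have e0 := fun v : ℝ => hC _ (hf0 v) _ (s0 v)
  have e1 := fun v : ℝ => hC _ (hf1 v) _ (s1 v)
  have e0' : ∀ v : ℝ, ∫ ψ in (0 : ℝ)..(2 * Real.pi),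
      cexp (-((-R + R / 2 * cexp (-(ψ * I))) * v)) * kn N m (R / 2 * cexp (-(ψ * I))) =
      ((2 * Real.pi : ℝ) : ℂ) * A0 v := by
    intro v
    rw [← e0 v]
    exact db_path
      (G := fun z => cexp (-((-R + R / 2 * z) * v)) * kn N m (R / 2 * z))
  have e1' : ∀ v : ℝ, ∫ ψ in (0 : ℝ)..(2 * Real.pi),
      (-R + R / 2 * cexp (-(ψ * I))) * cexp (-((-R + R / 2 * cexp (-(ψ * I))) * v)) *
        kn N m (R / 2 * cexp (-(ψ * I))) = ((2 * Real.pi : ℝ) : ℂ) * A1 v := by
    intro v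
    rw [← e1 v]
    exact db_path
      (G := fun z => (-R + R / 2 * z) * cexp (-((-R + R / 2 * z) * v)) * kn N m (R / 2 * z))
  -- continuity
  have ckn : ∀ g : ℝ → ℂ, Continuous g → (∀ t, g t ≠ 0) → Continuous fun t => kn N m (g t) := by
    intro g hg hg0
    unfold kn
    refine continuous_finsetSum _ fun i _ => ?_
    exact continuous_const.div (hg.pow i) fun t => pow_ne_zero i (hg0 t)
  have cw1 : Continuous fun φ : ℝ => (R : ℂ) / 2 * cexp (φ * I) := by fun_prop
  have cw2 : Continuous fun ψ : ℝ => (R : ℂ) / 2 * cexp (-(ψ * I)) := by fun_prop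
  have ck1 := ckn _ cw1 fun t => mul_ne_zero hRc (Complex.exp_ne_zero _)
  have ck2 := ckn _ cw2 fun t => mul_ne_zero hRc (Complex.exp_ne_zero _)
  have ca1 : Continuous fun φ : ℝ => -(R : ℂ) + R / 2 * cexp (φ * I) := by fun_prop
  have ca2 : Continuous fun ψ : ℝ => -(R : ℂ) + R / 2 * cexp (-(ψ * I)) := by fun_prop
  -- the real parts
  have hmem : ∀ w : ℂ, ‖w‖ = 1 → (-(R : ℂ) + R / 2 * w).re < 0 := by
    intro w hw
    apply hcb
    rw [Metric.mem_closedBall, dist_eq_norm, add_sub_cancel_left, norm_mul, hw, mul_one]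
    have e : ((R : ℂ) / 2) = ((R / 2 : ℝ) : ℂ) := by push_cast; ring
    rw [e, Complex.norm_real, Real.norm_eq_abs, abs_of_pos hρ]
  have hn1 : ∀ t : ℝ, ‖cexp (t * I)‖ = 1 := Complex.norm_exp_ofReal_mul_I
  have hn2 : ∀ t : ℝ, ‖cexp (-(t * I))‖ = 1 := by
    intro t
    have h := Complex.norm_exp_ofReal_mul_I (-t)
    rw [← h]
    congr 2
    push_cast
    ring
  have hne : ∀ a b : ℂ, a.re < 0 → b.re < 0 → a + b ≠ 0 := by
    intro a b ha hb h
    have h4 := congrArg Complex.re h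
    rw [Complex.add_re, Complex.zero_re] at h4
    linarith
  have hb : ∀ a b : ℂ, a.re < 0 → b.re < 0 → b0 a b x =
      (∫ v in (0 : ℝ)..1, (1 / x * cexp (-(a * v)) * cexp (-(b * v)) +
        x / 3 * (a * cexp (-(a * v))) * (b * cexp (-(b * v))))) + 1 / 2 +
        1 / 2 * cexp (-a) * cexp (-b) := by
    intro a b ha hb
    rw [h1 a b x hx (hne a b ha hb)]
    have e2 : ∀ v : ℝ, 1 / x * cexp (-(a * v)) * cexp (-(b * v)) +
        x / 3 * (a * cexp (-(a * v))) * (b * cexp (-(b * v))) =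
        (1 / x * (1 + x ^ 2 * a * b / 3)) * cexp (-(a + b) * v) := by
      intro v
      have e3 : cexp (-(a + b) * v) = cexp (-(a * v)) * cexp (-(b * v)) := by
        rw [← Complex.exp_add]
        congr 1
        ring
      rw [e3]
      field_simp
    rw [intervalIntegral.integral_congr fun v _ => e2 v, intervalIntegral.integral_const_mul]
    have e4 : cexp (-(a + b)) = cexp (-a) * cexp (-b) := by
      rw [← Complex.exp_add]
      congr 1
      ring
    rw [e4]
    ring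
  -- the inner integral
  have hin : ∀ φ : ℝ, ∫ ψ in (0 : ℝ)..(2 * Real.pi),
      b0 (-R + R / 2 * cexp (φ * I)) (-R + R / 2 * cexp (-(ψ * I))) x *
        (kn N m (R / 2 * cexp (φ * I)) * kn N m (R / 2 * cexp (-(ψ * I)))) =
      ((2 * Real.pi : ℝ) : ℂ) * (((∫ v in (0 : ℝ)..1, (1 / x * A0 v *
        cexp (-((-R + R / 2 * cexp (φ * I)) * v)) + x / 3 * A1 v *
        ((-R + R / 2 * cexp (φ * I)) * cexp (-((-R + R / 2 * cexp (φ * I)) * v))))) +
        1 / 2 * A0 0 + 1 / 2 * A0 1 * cexp (-(-R + R / 2 * cexp (φ * I)))) *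
        kn N m (R / 2 * cexp (φ * I))) := by
    intro φ
    set a := -(R : ℂ) + R / 2 * cexp (φ * I) with ha
    have har : a.re < 0 := hmem _ (hn1 φ)
    have hα : Continuous fun v : ℝ => 1 / (x : ℂ) * cexp (-(a * v)) := by fun_prop
    have hβ : Continuous fun v : ℝ => (x : ℂ) / 3 * (a * cexp (-(a * v))) := by fun_prop
    have h4 := db_lam ca2 ck2 e0' e1' hα hβ (1 / 2) (1 / 2 * cexp (-a))
    have e5 : ∀ ψ : ℝ, b0 a (-R + R / 2 * cexp (-(ψ * I))) x *
        (kn N m (R / 2 * cexp (φ * I)) * kn N m (R / 2 * cexp (-(ψ * I)))) =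
        kn N m (R / 2 * cexp (φ * I)) * (((∫ v in (0 : ℝ)..1, (1 / x * cexp (-(a * v)) *
          cexp (-((-R + R / 2 * cexp (-(ψ * I))) * v)) + x / 3 * (a * cexp (-(a * v))) *
          ((-R + R / 2 * cexp (-(ψ * I))) * cexp (-((-R + R / 2 * cexp (-(ψ * I))) * v))))) +
          1 / 2 + 1 / 2 * cexp (-a) * cexp (-(-R + R / 2 * cexp (-(ψ * I))))) *
          kn N m (R / 2 * cexp (-(ψ * I)))) := by
      intro ψ
      rw [hb a _ har (hmem _ (hn2 ψ))]
      ring
    rw [intervalIntegral.integral_congr fun ψ _ => e5 ψ, intervalIntegral.integral_const_mul, h4]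
    have e6 : ∀ v : ℝ, 1 / (x : ℂ) * cexp (-(a * v)) * A0 v +
        x / 3 * (a * cexp (-(a * v))) * A1 v =
        1 / x * A0 v * cexp (-(a * v)) + x / 3 * A1 v * (a * cexp (-(a * v))) := by
      intro v
      ring
    rw [intervalIntegral.integral_congr fun v _ => e6 v]
    ring
  rw [intervalIntegral.integral_congr fun φ _ => hin φ, intervalIntegral.integral_const_mul]
  have hα : Continuous fun v : ℝ => 1 / (x : ℂ) * A0 v := by fun_prop
  have hβ : Continuous fun v : ℝ => (x : ℂ) / 3 * A1 v := by fun_prop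
  rw [db_lam ca1 ck1 e0 e1 hα hβ (1 / 2 * A0 0) (1 / 2 * A0 1)]
  have g0 : A0 0 = 1 := by
    show ((gQ N m R 0 : ℝ) : ℂ) = 1
    unfold gQ
    rw [hQ0, mul_zero, Real.exp_zero, mul_one, ofReal_one]
  have e7 : ∀ v : ℝ, 1 / (x : ℂ) * A0 v * A0 v + x / 3 * A1 v * A1 v =
      ((1 / x * gQ N m R v ^ 2 + x / 3 * deriv (gQ N m R) v ^ 2 : ℝ) : ℂ) := by
    intro v
    show 1 / (x : ℂ) * ((gQ N m R v : ℝ) : ℂ) * ((gQ N m R v : ℝ) : ℂ) +
      x / 3 * (-((deriv (gQ N m R) v : ℝ) : ℂ)) * (-((deriv (gQ N m R) v : ℝ) : ℂ)) = _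
    push_cast
    ring
  have cg : Continuous (gQ N m R) := (hgC R).continuous
  have cg' : Continuous (deriv (gQ N m R)) := (hgC R).continuous_deriv le_rfl
  have cg2 : Continuous fun v : ℝ => 1 / x * gQ N m R v ^ 2 := (cg.pow 2).const_mul _
  have cg3 : Continuous fun v : ℝ => x / 3 * deriv (gQ N m R) v ^ 2 := (cg'.pow 2).const_mul _
  have e8 : ∫ v in (0 : ℝ)..1, (1 / (x : ℂ) * A0 v * A0 v + x / 3 * A1 v * A1 v) =
      ((1 / x * (∫ v in (0 : ℝ)..1, gQ N m R v ^ 2) +
        x / 3 * ∫ v in (0 : ℝ)..1, deriv (gQ N m R) v ^ 2 : ℝ) : ℂ) := by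
    rw [intervalIntegral.integral_congr fun v _ => e7 v, intervalIntegral.integral_ofReal,
      intervalIntegral.integral_add (cg2.intervalIntegrable _ _) (cg3.intervalIntegrable _ _),
      intervalIntegral.integral_const_mul, intervalIntegral.integral_const_mul]
  rw [e8, g0]
  have g1 : A0 1 = ((gQ N m R 1 : ℝ) : ℂ) := rfl
  rw [g1]
  unfold cQ
  push_cast
  field_simp
  ring

end Pool.Agent.H96.CRG
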